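import Pool.Agent.H36.CpFive

/-!
# MP_072e03_gt: continuous images of `C_p(X)`, `X` compact zero-dimensional, in `C_p` of a cube
-/

set_option autoImplicit false

namespace Pool.Agent.Results.MP_072e03_gt.CountableNetwork

/-- `C_p(X)`: the continuous real functions on `X`, with the topology of pointwise convergence (the subspace
topology inherited from the product `X → ℝ`). -/
abbrev Cp (X : Type) [TopologicalSpace X] : Type := {f : X → ℝ // Continuous f}

/-- `𝒩` is a network for the space `Z`: every open set is a union of members of `𝒩`. -/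
def IsNetwork {Z : Type} [TopologicalSpace Z] (𝒩 : Set (Set Z)) : Prop :=
  ∀ U : Set Z, IsOpen U → ∃ S : Set (Set Z), S ⊆ 𝒩 ∧ U = ⋃₀ S

/-- Let `X` be a compact Hausdorff totally disconnected space (for instance any Cantor cube) and let `I` be a set of
cardinality at most that of the continuum (for instance `ℵ₁`).  For every continuous map
`φ : C_p(X) → C_p([0,1]^I)` there is a countable `J ⊆ I` such that all functions `φ(f)` depend only on the
coordinates in `J`, and the image of `φ` has a countable network. -/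
theorem result (X : Type) [TopologicalSpace X] [CompactSpace X] [T2Space X]
    [TotallyDisconnectedSpace X] (I : Type) (hI : Cardinal.mk I ≤ Cardinal.continuum)
    (φ : Cp X → Cp (I → unitInterval)) (hφ : Continuous φ) :
    (∃ J : Set I, J.Countable ∧ ∀ f : Cp X, ∀ y y' : I → unitInterval,
      (∀ i ∈ J, y i = y' i) → (φ f).1 y = (φ f).1 y') ∧
    ∃ 𝒩 : Set (Set (Set.range φ)), 𝒩.Countable ∧ IsNetwork 𝒩 := by
  have hsep : TopologicalSpace.SeparableSpace (I → unitInterval) :=
    Pool.Agent.H36.separable_cube hI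
  obtain ⟨J, hJ, hdep⟩ := Pool.Agent.H36.countable_support_Cp (Ω := I) (X := X) φ hφ
  obtain ⟨N, hN, hnet⟩ := Pool.Agent.H36.network_of_countable_support φ J hJ hdep
  refine ⟨⟨J, hJ, fun f y y' h => hdep f y y' fun i hi => (h i hi).symm⟩,
    (fun A => Subtype.val ⁻¹' A) '' N, hN.image _, ?_⟩
  intro U hU
  obtain ⟨V, hV, rfl⟩ := isOpen_induced_iff.1 hU
  refine ⟨{A | A ∈ (fun A => Subtype.val ⁻¹' A) '' N ∧ A ⊆ Subtype.val ⁻¹' V},
    fun A hA => hA.1, ?_⟩
  ext x
  constructor
  · intro hx
    obtain ⟨A, hA, hxA, hAV⟩ := hnet x.1 x.2 V hV hx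
    exact ⟨Subtype.val ⁻¹' A, ⟨⟨A, hA, rfl⟩, fun z hz => (hAV hz).1⟩, hxA⟩
  · rintro ⟨A, hA, hxA⟩
    exact hA.2 hxA

end Pool.Agent.Results.MP_072e03_gt.CountableNetwork
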